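import Mathlib

open MeasureTheory ENNReal Filter Topology

namespace Pool.Agent.Helper40.Bilin

/-- polynomial growth -/
theorem poly_growth (P : Polynomial ℤ) :
    ∃ n₀ : ℕ, ∀ n : ℕ, n₀ ≤ n →
      3 * (P.leadingCoeff.natAbs * n ^ P.natDegree) ≤ 4 * (P.eval (n : ℤ)).natAbs ∧
      4 * (P.eval (n : ℤ)).natAbs ≤ 5 * (P.leadingCoeff.natAbs * n ^ P.natDegree) := by
  have h1 := (P.map (Int.castRingHom ℝ)).isEquivalent_atTop_lead
  have hinj : Function.Injective (Int.castRingHom ℝ) := Int.cast_injective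
  rw [Polynomial.leadingCoeff_map_of_injective hinj,
    Polynomial.natDegree_map_eq_of_injective hinj] at h1
  have h2 := h1.isLittleO.def (c := 1 / 4) (by norm_num)
  have h3 := (tendsto_natCast_atTop_atTop (R := ℝ)).eventually h2
  rw [eventually_atTop] at h3
  obtain ⟨n₀, hn₀⟩ := h3
  refine ⟨n₀, fun n hn => ?_⟩
  have h4 := hn₀ n hn
  simp only [Pi.sub_apply, Int.coe_castRingHom] at h4
  have h5 : (P.map (Int.castRingHom ℝ)).eval (n : ℝ) = ((P.eval (n : ℤ) : ℤ) : ℝ) := by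
    simp
  have h5' : Polynomial.eval (n : ℝ) (P.map (Int.castRingHom ℝ)) = ((P.eval (n : ℤ) : ℤ) : ℝ) := h5
  rw [h5'] at h4
  have h6 : ((P.leadingCoeff : ℝ) * (n : ℝ) ^ P.natDegree) =
    ((P.leadingCoeff * (n : ℤ) ^ P.natDegree : ℤ) : ℝ) := by push_cast; ring
  rw [h6, ← Int.cast_sub, Real.norm_eq_abs, Real.norm_eq_abs, ← Int.cast_abs, ← Int.cast_abs] at h4
  have h7 : 4 * |P.eval (n : ℤ) - P.leadingCoeff * (n : ℤ) ^ P.natDegree| ≤
      |P.leadingCoeff * (n : ℤ) ^ P.natDegree| := by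
    have : (4 : ℝ) * (|P.eval (n : ℤ) - P.leadingCoeff * (n : ℤ) ^ P.natDegree| : ℤ) ≤
      (|P.leadingCoeff * (n : ℤ) ^ P.natDegree| : ℤ) := by linarith
    exact_mod_cast this
  have h8 : (P.leadingCoeff.natAbs * n ^ P.natDegree : ℕ) =
      (P.leadingCoeff * (n : ℤ) ^ P.natDegree).natAbs := by
    rw [Int.natAbs_mul, Int.natAbs_pow, Int.natAbs_natCast]
  rw [h8]
  have h9 := abs_sub_abs_le_abs_sub (P.eval (n : ℤ)) (P.leadingCoeff * (n : ℤ) ^ P.natDegree)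
  have h10 := abs_sub_abs_le_abs_sub (P.leadingCoeff * (n : ℤ) ^ P.natDegree) (P.eval (n : ℤ))
  rw [abs_sub_comm] at h10
  rw [Int.abs_eq_natAbs, Int.abs_eq_natAbs] at h7 
  simp only [Int.abs_eq_natAbs] at h9 h10
  omega

/-- scales -/
def sc (R B : ℕ) (j : ℕ) : ℕ := R ^ j * B

theorem sc_mono {R B : ℕ} (hR : 2 ≤ R) (hB : 1 ≤ B) : StrictMono (sc R B) := by
  intro i j hij
  unfold sc
  exact Nat.mul_lt_mul_of_pos_right (Nat.pow_lt_pow_right (by omega) hij) (by omega)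

/-- the counting function -/
noncomputable def cnt (A d R B K : ℕ) (y : ℤ) : ℕ :=
  ((Finset.range (K + 1)).filter (fun j => 3 * (A * sc R B j ^ d) < 2 * y.natAbs)).card

theorem cnt_eq {A d R B K : ℕ} (hR : 2 ≤ R) (hB : 1 ≤ B) (y : ℤ) (i : ℕ)
    (hi : i ≤ K)
    (h1 : ∀ j < i, 3 * (A * sc R B j ^ d) < 2 * y.natAbs)
    (h2 : 2 * y.natAbs ≤ 3 * (A * sc R B i ^ d)) : cnt A d R B K y = i := by
  unfold cnt
  have : (Finset.range (K + 1)).filter (fun j => 3 * (A * sc R B j ^ d) < 2 * y.natAbs) =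
      Finset.range i := by
    ext j
    simp only [Finset.mem_filter, Finset.mem_range]
    constructor
    · rintro ⟨_, h⟩
      by_contra hj
      have h3 : sc R B i ≤ sc R B j := (sc_mono hR hB).monotone (not_lt.1 hj)
      have h4 : A * sc R B i ^ d ≤ A * sc R B j ^ d :=
        Nat.mul_le_mul_left _ (Nat.pow_le_pow_left h3 d)
      omega
    · intro hj
      exact ⟨by omega, h1 j hj⟩
  rw [this, Finset.card_range]

theorem cnt_poly {P : Polynomial ℤ} {d A n₀ R B K : ℕ} (hd : 2 ≤ d) (hA : 1 ≤ A)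
    (hn₀ : ∀ n : ℕ, n₀ ≤ n → 3 * (A * n ^ d) ≤ 4 * (P.eval (n : ℤ)).natAbs ∧
      4 * (P.eval (n : ℤ)).natAbs ≤ 5 * (A * n ^ d))
    (hR : 2 ≤ R) (hB : 4 * R ^ K + 1 ≤ B) (hB2 : n₀ ≤ B) (i : ℕ) (hi : i + 1 ≤ K) (n : ℕ)
    (hn1 : 2 * sc R B i < n) (hn2 : n ≤ sc R B (i + 1)) (x : ℕ) (hx : x < sc R B K) :
    cnt A d R B K ((x : ℤ) + P.eval (n : ℤ)) = i + 1 := by
  have hB1 : 1 ≤ B := by omega
  have hsB : ∀ j, B ≤ sc R B j := by
    intro j
    unfold sc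
    exact Nat.le_mul_of_pos_left _ (Nat.pos_of_ne_zero (by positivity))
  have hnn : n₀ ≤ n := by have := hsB i; omega
  obtain ⟨h1, h2⟩ := hn₀ n hnn
  -- the size of the spatial error
  have hxK : 4 * x ≤ A * B ^ d := by
    have e1 : 4 * x ≤ 4 * (R ^ K * B) := by unfold sc at hx; omega
    have e2 : 4 * (R ^ K * B) ≤ B * B := by
      calc 4 * (R ^ K * B) = (4 * R ^ K) * B := by ring
        _ ≤ B * B := Nat.mul_le_mul_right _ (by omega)
    have e3 : B * B ≤ B ^ d := by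
      calc B * B = B ^ 2 := by ring
        _ ≤ B ^ d := Nat.pow_le_pow_right hB1 hd
    have e4 : B ^ d ≤ A * B ^ d := Nat.le_mul_of_pos_left _ hA
    omega
  have hpos : 1 ≤ A * B ^ d := by
    have : 0 < A * B ^ d := by positivity
    omega
  have hBi : ∀ j, A * B ^ d ≤ A * sc R B j ^ d := fun j =>
    Nat.mul_le_mul_left _ (Nat.pow_le_pow_left (hsB j) d)
  have hn2' : A * n ^ d ≤ A * sc R B (i + 1) ^ d :=
    Nat.mul_le_mul_left _ (Nat.pow_le_pow_left hn2 d)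
  have hn1' : 4 * (A * sc R B i ^ d) ≤ A * n ^ d := by
    have e1 : (2 * sc R B i) ^ d ≤ n ^ d := Nat.pow_le_pow_left hn1.le d
    have e2 : 4 * sc R B i ^ d ≤ (2 * sc R B i) ^ d := by
      rw [mul_pow]
      apply Nat.mul_le_mul_right
      calc 4 = 2 ^ 2 := by norm_num
        _ ≤ 2 ^ d := Nat.pow_le_pow_right (by norm_num) hd
    calc 4 * (A * sc R B i ^ d) = A * (4 * sc R B i ^ d) := by ring
      _ ≤ A * n ^ d := Nat.mul_le_mul_left _ (e2.trans e1)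
  apply cnt_eq hR hB1 _ _ hi
  · intro j hj
    have hj' : A * sc R B j ^ d ≤ A * sc R B i ^ d :=
      Nat.mul_le_mul_left _ (Nat.pow_le_pow_left ((sc_mono hR hB1).monotone (by omega)) d)
    have hb := hBi i
    have e1 : (P.eval (n : ℤ)).natAbs ≤ ((x : ℤ) + P.eval (n : ℤ)).natAbs + x := by omega
    omega
  · have hb := hBi (i + 1)
    have e1 : ((x : ℤ) + P.eval (n : ℤ)).natAbs ≤ (P.eval (n : ℤ)).natAbs + x := by omega
    omega

end Pool.Agent.Helper40.Bilin
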