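import Mathlib

/-!
Definitions for bilinear polynomial ergodic averages.
-/

namespace Pool.Agent.Helper40.Bilin

open MeasureTheory ENNReal

/-- the bilinear average `A_N(f,g)(x) = ⌊N⌋⁻¹ ∑_{n=1}^{⌊N⌋} f(T^n x) g(T^{P(n)} x)` -/
noncomputable def avg {X : Type*} (T : Equiv.Perm X) (P : Polynomial ℤ) (f g : X → ℂ) (N : ℝ)
    (x : X) : ℂ :=
  (∑ n ∈ Finset.Icc 1 ⌊N⌋₊, f ((T ^ n) x) * g ((T ^ (P.eval (n : ℤ))) x)) / (⌊N⌋₊ : ℂ)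

/-- the norm `V^r` of a family indexed by a set `D` of reals: the supremum of the absolute values
plus the `r`-variation over all finite increasing chains in `D` -/
noncomputable def vnorm (r : ℝ) (D : Set ℝ) (a : ℝ → ℂ) : ℝ≥0∞ :=
  (⨆ N ∈ D, ‖a N‖ₑ) +
    ⨆ (m : ℕ) (c : Fin (m + 1) → ℝ) (_ : StrictMono c) (_ : ∀ i, c i ∈ D),
      (∑ i : Fin m, ‖a (c i.succ) - a (c i.castSucc)‖ₑ ^ r) ^ (1 / r)

/-- a set `D ⊆ [1, ∞)` is `lam`-lacunary -/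
def Lacunary (lam : ℝ) (D : Set ℝ) : Prop :=
  (∀ N ∈ D, 1 ≤ N) ∧ ∀ N ∈ D, ∀ N' ∈ D, N < N' → lam * N ≤ N'

/-- the target exponent `p`, with `1/p = 1/p₁ + 1/p₂` -/
noncomputable def expo (p₁ p₂ : ℝ≥0∞) : ℝ := ((p₁⁻¹ + p₂⁻¹)⁻¹).toReal

/-- the inequality of property (iv) with constant `C` on one measure preserving system: for all
`lam`-lacunary sets `D` and all functions `f ∈ L^{p₁}`, `g ∈ L^{p₂}` -/
def VarBound (p₁ p₂ : ℝ≥0∞) (r lam : ℝ) (P : Polynomial ℤ) {X : Type*} [MeasurableSpace X]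
    (μ : Measure X) (T : X ≃ᵐ X) (C : ℝ) : Prop :=
  ∀ D : Set ℝ, Lacunary lam D → ∀ f g : X → ℂ, MemLp f p₁ μ → MemLp g p₂ μ →
    (∫⁻ x, vnorm r D (fun N => avg T.toEquiv P f g N x) ^ (expo p₁ p₂) ∂μ) ^ (1 / expo p₁ p₂) ≤
      ENNReal.ofReal C * eLpNorm f p₁ μ * eLpNorm g p₂ μ

end Pool.Agent.Helper40.Bilin
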