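import Mathlib
import Pool.Agent.Helper40.Bilin.Defs
import Pool.Agent.Helper40.Bilin.Comb

open MeasureTheory ENNReal Filter Topology

namespace Pool.Agent.Helper40.Bilin

/-- the shift on the integers -/
def shiftZ : ℤ ≃ᵐ ℤ := MeasurableEquiv.addRight (1 : ℤ)

theorem shiftZ_apply (x : ℤ) : (shiftZ.toEquiv : Equiv.Perm ℤ) x = x + 1 := rfl

theorem shiftZ_pow (n : ℕ) (x : ℤ) : (shiftZ.toEquiv ^ n : Equiv.Perm ℤ) x = x + n := by
  induction n generalizing x with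
  | zero => simp
  | succ n ih => rw [pow_succ, Equiv.Perm.mul_apply, ih, shiftZ_apply]; push_cast; ring

theorem shiftZ_zpow (n : ℤ) (x : ℤ) : (shiftZ.toEquiv ^ n : Equiv.Perm ℤ) x = x + n := by
  obtain ⟨m, rfl | rfl⟩ := n.eq_nat_or_neg
  · rw [zpow_natCast, shiftZ_pow]
  · rw [zpow_neg, zpow_natCast, Equiv.Perm.inv_eq_iff_eq, shiftZ_pow]
    ring

theorem shiftZ_mp : MeasurePreserving shiftZ Measure.count Measure.count := by
  refine ⟨shiftZ.measurable, ?_⟩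
  ext s hs
  rw [Measure.map_apply shiftZ.measurable hs, Measure.count_apply hs,
    Measure.count_apply (shiftZ.measurable hs)]
  congr 1
  exact Set.encard_preimage_of_bijective shiftZ.bijective s

/-- first function -/
noncomputable def ff (L : ℕ) : ℤ → ℂ := Set.indicator (Set.Ico (0 : ℤ) (2 * L)) (fun _ => (1 : ℂ))

/-- second function -/
noncomputable def gg (A d R B K : ℕ) : ℤ → ℂ := fun y => (-1 : ℂ) ^ cnt A d R B K y

theorem norm_gg (A d R B K : ℕ) (y : ℤ) : ‖gg A d R B K y‖ = 1 := by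
  unfold gg
  rw [norm_pow, norm_neg, norm_one, one_pow]

theorem avg_near {P : Polynomial ℤ} {d A n₀ R B K : ℕ} (hd : 2 ≤ d) (hA : 1 ≤ A)
    (hn₀ : ∀ n : ℕ, n₀ ≤ n → 3 * (A * n ^ d) ≤ 4 * (P.eval (n : ℤ)).natAbs ∧
      4 * (P.eval (n : ℤ)).natAbs ≤ 5 * (A * n ^ d))
    (hR : 8 ≤ R) (hB : 4 * R ^ K + 1 ≤ B) (hB2 : n₀ ≤ B) (i : ℕ) (hi : i + 1 ≤ K)
    (x : ℕ) (hx : x < sc R B K) :
    ‖avg shiftZ.toEquiv P (ff (sc R B K)) (gg A d R B K) (sc R B (i + 1) : ℝ) (x : ℤ) -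
      (-1 : ℂ) ^ (i + 1)‖ ≤ 1 / 2 := by
  set M := sc R B (i + 1) with hM
  have hMR : M = R * sc R B i := by rw [hM]; unfold sc; ring
  have hs0 : 1 ≤ sc R B i := by
    unfold sc
    have : 0 < R ^ i * B := by
      have : 0 < B := by omega
      positivity
    omega
  have hMpos : 0 < M := by rw [hMR]; positivity
  have hMK : M ≤ sc R B K := (sc_mono (by omega : 2 ≤ R) (by omega : 1 ≤ B)).monotone hi
  have hM0 : (M : ℂ) ≠ 0 := by exact_mod_cast hMpos.ne'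
  unfold avg
  rw [Nat.floor_natCast]
  have hterm : ∀ n ∈ Finset.Icc 1 M, ff (sc R B K) ((shiftZ.toEquiv ^ n : Equiv.Perm ℤ) x) *
      gg A d R B K ((shiftZ.toEquiv ^ (P.eval (n : ℤ)) : Equiv.Perm ℤ) x) =
      gg A d R B K ((x : ℤ) + P.eval (n : ℤ)) := by
    intro n hn
    rw [shiftZ_pow, shiftZ_zpow]
    have h1 : ff (sc R B K) ((x : ℤ) + n) = 1 := by
      unfold ff
      apply Set.indicator_of_mem
      have := (Finset.mem_Icc.1 hn).2
      constructor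
      · positivity
      · have : x + n < 2 * sc R B K := by omega
        exact_mod_cast this
    rw [h1, one_mul]
  rw [Finset.sum_congr rfl hterm]
  have hdiff : (∑ n ∈ Finset.Icc 1 M, gg A d R B K ((x : ℤ) + P.eval (n : ℤ))) / (M : ℂ) -
      (-1 : ℂ) ^ (i + 1) =
      (∑ n ∈ Finset.Icc 1 M, (gg A d R B K ((x : ℤ) + P.eval (n : ℤ)) - (-1 : ℂ) ^ (i + 1))) /
        (M : ℂ) := by
    rw [Finset.sum_sub_distrib, Finset.sum_const, Nat.card_Icc, nsmul_eq_mul]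
    have : M + 1 - 1 = M := by omega
    rw [this]
    field_simp
  rw [hdiff, norm_div, Complex.norm_natCast, div_le_iff₀ (by exact_mod_cast hMpos)]
  have hbound : ∀ n ∈ Finset.Icc 1 M,
      ‖gg A d R B K ((x : ℤ) + P.eval (n : ℤ)) - (-1 : ℂ) ^ (i + 1)‖ ≤
      if n ≤ 2 * sc R B i then 2 else 0 := by
    intro n hn
    split_ifs with h
    · calc _ ≤ ‖gg A d R B K ((x : ℤ) + P.eval (n : ℤ))‖ + ‖(-1 : ℂ) ^ (i + 1)‖ := norm_sub_le _ _
        _ = 2 := by rw [norm_gg, norm_pow, norm_neg, norm_one, one_pow]; norm_num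
    · have h2 := cnt_poly hd hA hn₀ (by omega) hB hB2 i hi n (by omega) (Finset.mem_Icc.1 hn).2 x hx
      unfold gg
      rw [h2, sub_self, norm_zero]
  calc _ ≤ ∑ n ∈ Finset.Icc 1 M,
        ‖gg A d R B K ((x : ℤ) + P.eval (n : ℤ)) - (-1 : ℂ) ^ (i + 1)‖ := norm_sum_le _ _
    _ ≤ ∑ n ∈ Finset.Icc 1 M, (if n ≤ 2 * sc R B i then (2 : ℝ) else 0) :=
        Finset.sum_le_sum hbound
    _ = (((Finset.Icc 1 M).filter (fun n => n ≤ 2 * sc R B i)).card : ℝ) * 2 := by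
        rw [← Finset.sum_filter, Finset.sum_const, nsmul_eq_mul]
    _ ≤ ((2 * sc R B i : ℕ) : ℝ) * 2 := by
        gcongr
        calc _ ≤ (Finset.Icc 1 (2 * sc R B i)).card := by
              apply Finset.card_le_card
              intro n hn
              rw [Finset.mem_filter, Finset.mem_Icc] at hn
              rw [Finset.mem_Icc]
              exact ⟨hn.1.1, hn.2⟩
          _ = _ := by rw [Nat.card_Icc]; omega
    _ ≤ 1 / 2 * M := by
        rw [hMR]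
        push_cast
        have h1 : (8 : ℝ) ≤ R := by exact_mod_cast hR
        have h2 : (0 : ℝ) ≤ sc R B i := by positivity
        nlinarith

theorem vnorm_ge {P : Polynomial ℤ} {d A n₀ R B m : ℕ} (hd : 2 ≤ d) (hA : 1 ≤ A)
    (hn₀ : ∀ n : ℕ, n₀ ≤ n → 3 * (A * n ^ d) ≤ 4 * (P.eval (n : ℤ)).natAbs ∧
      4 * (P.eval (n : ℤ)).natAbs ≤ 5 * (A * n ^ d))
    (hR : 8 ≤ R) (hB : 4 * R ^ (m + 1) + 1 ≤ B) (hB2 : n₀ ≤ B) (r : ℝ) (hr : 0 < r)
    (x : ℕ) (hx : x < sc R B (m + 1)) :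
    (m : ℝ≥0∞) ^ (1 / r) ≤ vnorm r {y | ∃ i : ℕ, i < m + 1 ∧ y = (sc R B (i + 1) : ℝ)}
      (fun N => avg shiftZ.toEquiv P (ff (sc R B (m + 1))) (gg A d R B (m + 1)) N (x : ℤ)) := by
  unfold vnorm
  refine le_trans ?_ le_add_self
  refine le_trans ?_ (le_iSup _ m)
  refine le_trans ?_ (le_iSup _ (fun i : Fin (m + 1) => (sc R B ((i : ℕ) + 1) : ℝ)))
  have hmono : StrictMono (fun i : Fin (m + 1) => (sc R B ((i : ℕ) + 1) : ℝ)) := by
    intro i j hij
    have : sc R B ((i : ℕ) + 1) < sc R B ((j : ℕ) + 1) :=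
      sc_mono (by omega) (by omega) (by have : (i : ℕ) < j := hij; omega)
    change (sc R B ((i : ℕ) + 1) : ℝ) < (sc R B ((j : ℕ) + 1) : ℝ)
    exact_mod_cast this
  have hmem : ∀ i : Fin (m + 1), (fun i : Fin (m + 1) => (sc R B ((i : ℕ) + 1) : ℝ)) i ∈
      {y | ∃ i : ℕ, i < m + 1 ∧ y = (sc R B (i + 1) : ℝ)} := fun i => ⟨i, i.2, rfl⟩
  refine le_trans ?_ (le_iSup _ hmono)
  refine le_trans ?_ (le_iSup _ hmem)
  apply ENNReal.rpow_le_rpow _ (by positivity)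
  calc (m : ℝ≥0∞) = ∑ i : Fin m, 1 := by simp
    _ ≤ _ := by
      apply Finset.sum_le_sum
      intro i _
      have h1 := avg_near hd hA hn₀ hR hB hB2 (i : ℕ) (by have := i.2; omega) x hx
      have h2 := avg_near hd hA hn₀ hR hB hB2 ((i : ℕ) + 1) (by have := i.2; omega) x hx
      set u := avg shiftZ.toEquiv P (ff (sc R B (m + 1))) (gg A d R B (m + 1))
        (sc R B ((i : ℕ) + 1) : ℝ) (x : ℤ) with hu
      set v := avg shiftZ.toEquiv P (ff (sc R B (m + 1))) (gg A d R B (m + 1))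
        (sc R B ((i : ℕ) + 1 + 1) : ℝ) (x : ℤ) with hv
      have h3 : (1 : ℝ) ≤ ‖v - u‖ := by
        have h4 : ‖(-1 : ℂ) ^ ((i : ℕ) + 1 + 1) - (-1 : ℂ) ^ ((i : ℕ) + 1)‖ = 2 := by
          have : (-1 : ℂ) ^ ((i : ℕ) + 1 + 1) - (-1 : ℂ) ^ ((i : ℕ) + 1) =
            (-2) * (-1 : ℂ) ^ ((i : ℕ) + 1) := by ring
          rw [this, norm_mul, norm_pow, norm_neg, norm_neg, norm_one, one_pow]
          norm_num
        have h5 : (-1 : ℂ) ^ ((i : ℕ) + 1 + 1) - (-1 : ℂ) ^ ((i : ℕ) + 1) =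
            (v - u) - (v - (-1 : ℂ) ^ ((i : ℕ) + 1 + 1)) + (u - (-1 : ℂ) ^ ((i : ℕ) + 1)) := by ring
        rw [h5] at h4
        have h6 := norm_add_le ((v - u) - (v - (-1 : ℂ) ^ ((i : ℕ) + 1 + 1)))
          (u - (-1 : ℂ) ^ ((i : ℕ) + 1))
        have h7 := norm_sub_le (v - u) (v - (-1 : ℂ) ^ ((i : ℕ) + 1 + 1))
        linarith
      have h8 : (1 : ℝ≥0∞) ≤ ‖v - u‖ₑ := by
        rw [← ofReal_norm, ← ENNReal.ofReal_one]
        exact ENNReal.ofReal_le_ofReal h3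
      calc (1 : ℝ≥0∞) = 1 ^ r := (ENNReal.one_rpow r).symm
        _ ≤ ‖v - u‖ₑ ^ r := ENNReal.rpow_le_rpow h8 hr.le
        _ = _ := rfl

theorem no_bound (P : Polynomial ℤ) (hP : 2 ≤ P.natDegree) (p : ℝ) (hp : 1 ≤ p) (r : ℝ)
    (hr : 0 < r) (lam : ℝ) (C : ℝ) :
    ¬ VarBound (ENNReal.ofReal p) ∞ r lam P Measure.count shiftZ C := by
  intro hV
  have hexp : expo (ENNReal.ofReal p) ∞ = p := by
    unfold expo
    rw [ENNReal.inv_top, add_zero, inv_inv, ENNReal.toReal_ofReal (by linarith)]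
  unfold VarBound at hV
  rw [hexp] at hV
  obtain ⟨n₀, hn₀⟩ := poly_growth P
  have hA : 1 ≤ P.leadingCoeff.natAbs := by
    have : P.leadingCoeff ≠ 0 := by
      rw [Polynomial.leadingCoeff_ne_zero]
      rintro rfl
      simp at hP
    omega
  -- parameters
  obtain ⟨m, hm⟩ := exists_nat_gt ((2 * |C|) ^ r)
  set R : ℕ := max 8 ⌈lam⌉₊ with hRdef
  have hR8 : 8 ≤ R := le_max_left _ _
  have hRlam : lam ≤ R := (Nat.le_ceil lam).trans (by exact_mod_cast le_max_right _ _)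
  set B : ℕ := 4 * R ^ (m + 1) + 1 + n₀ with hBdef
  set L : ℕ := sc R B (m + 1) with hL
  have hLpos : 0 < L := by
    rw [hL]; unfold sc; positivity
  set D : Set ℝ := {y | ∃ i : ℕ, i < m + 1 ∧ y = (sc R B (i + 1) : ℝ)} with hD
  have hlac : Lacunary lam D := by
    refine ⟨?_, ?_⟩
    · rintro _ ⟨i, _, rfl⟩
      have : 1 ≤ sc R B (i + 1) := by
        have : 0 < sc R B (i + 1) := by unfold sc; positivity
        omega
      exact_mod_cast this
    · rintro _ ⟨i, _, rfl⟩ _ ⟨j, _, rfl⟩ hij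
      have h1 : sc R B (i + 1) < sc R B (j + 1) := by exact_mod_cast hij
      have h2 : i + 1 < j + 1 := (sc_mono (by omega) (by omega)).lt_iff_lt.1 h1
      have h3 : R * sc R B (i + 1) ≤ sc R B (j + 1) := by
        have : R * sc R B (i + 1) = sc R B (i + 1 + 1) := by unfold sc; ring
        rw [this]
        exact (sc_mono (by omega : 2 ≤ R) (by omega : 1 ≤ B)).monotone (by omega)
      calc lam * (sc R B (i + 1) : ℝ) ≤ R * (sc R B (i + 1) : ℝ) := by gcongr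
        _ ≤ _ := by exact_mod_cast h3
  have hp0 : 0 < p := by linarith
  have hpt : (ENNReal.ofReal p).toReal = p := ENNReal.toReal_ofReal hp0.le
  have hcount : Measure.count (Set.Ico (0 : ℤ) (2 * L)) = (2 * L : ℝ≥0∞) := by
    rw [Measure.count_apply_finite _ (Set.finite_Ico _ _)]
    have h1 : (2 * (L : ℤ)).toNat = 2 * L := by omega
    simp [h1]
  have hf : MemLp (ff L) (ENNReal.ofReal p) (Measure.count : Measure ℤ) := by
    apply memLp_indicator_const _ measurableSet_Ico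
    right
    rw [hcount]
    exact ENNReal.mul_ne_top (by norm_num) (by simp)
  have hg : MemLp (gg P.leadingCoeff.natAbs P.natDegree R B (m + 1)) ∞
      (Measure.count : Measure ℤ) := by
    apply memLp_top_of_bound _ 1
    · exact Eventually.of_forall fun y => (norm_gg _ _ _ _ _ y).le
    · exact (measurable_of_countable _).aestronglyMeasurable
  have key := hV D hlac (ff L) _ hf hg
  have hnf : eLpNorm (ff L) (ENNReal.ofReal p) (Measure.count : Measure ℤ) =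
      (2 * L : ℝ≥0∞) ^ (1 / p) := by
    unfold ff
    rw [eLpNorm_indicator_const measurableSet_Ico (by simpa using hp0) ENNReal.ofReal_ne_top, hpt,
      hcount]
    simp
  have hng : eLpNorm (gg P.leadingCoeff.natAbs P.natDegree R B (m + 1)) ∞
      (Measure.count : Measure ℤ) ≤ 1 := by
    rw [eLpNorm_exponent_top]
    have := eLpNormEssSup_le_of_ae_bound (f := gg P.leadingCoeff.natAbs P.natDegree R B (m + 1))
      (μ := (Measure.count : Measure ℤ)) (C := 1)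
      (Eventually.of_forall fun y => (norm_gg _ _ _ _ _ y).le)
    simpa using this
  have hlow : ((L : ℝ≥0∞) * ((m : ℝ≥0∞) ^ (1 / r)) ^ p) ^ (1 / p) ≤
      (∫⁻ x, vnorm r D (fun N => avg shiftZ.toEquiv P (ff L)
        (gg P.leadingCoeff.natAbs P.natDegree R B (m + 1)) N x) ^ p ∂Measure.count) ^ (1 / p) := by
    apply ENNReal.rpow_le_rpow _ (by positivity)
    rw [lintegral_count]
    have h1 : (L : ℝ≥0∞) * ((m : ℝ≥0∞) ^ (1 / r)) ^ p =
        ∑ x ∈ (Finset.range L).map ⟨fun n : ℕ => (n : ℤ), Nat.cast_injective⟩,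
          ((m : ℝ≥0∞) ^ (1 / r)) ^ p := by
      rw [Finset.sum_const, Finset.card_map, Finset.card_range, nsmul_eq_mul]
    rw [h1]
    refine le_trans (Finset.sum_le_sum ?_) (ENNReal.sum_le_tsum
      ((Finset.range L).map ⟨fun n : ℕ => (n : ℤ), Nat.cast_injective⟩))
    intro y hy
    rw [Finset.mem_map] at hy
    obtain ⟨x, hx, rfl⟩ := hy
    apply ENNReal.rpow_le_rpow _ hp0.le
    exact vnorm_ge hP hA hn₀ hR8 (by omega) (by omega) r hr x (Finset.mem_range.1 hx)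
  have h2 : (L : ℝ≥0∞) ^ (1 / p) * (m : ℝ≥0∞) ^ (1 / r) ≤
      ENNReal.ofReal C * (2 * L : ℝ≥0∞) ^ (1 / p) := by
    calc (L : ℝ≥0∞) ^ (1 / p) * (m : ℝ≥0∞) ^ (1 / r)
        = ((L : ℝ≥0∞) * ((m : ℝ≥0∞) ^ (1 / r)) ^ p) ^ (1 / p) := by
          rw [ENNReal.mul_rpow_of_nonneg _ _ (by positivity), ← ENNReal.rpow_mul _ p,
            mul_one_div_cancel hp0.ne', ENNReal.rpow_one]
      _ ≤ _ := hlow
      _ ≤ _ := key
      _ ≤ ENNReal.ofReal C * (2 * L : ℝ≥0∞) ^ (1 / p) * 1 := by rw [hnf]; gcongr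
      _ = _ := mul_one _
  have h3 : (2 * L : ℝ≥0∞) ^ (1 / p) ≤ 2 * (L : ℝ≥0∞) ^ (1 / p) := by
    rw [ENNReal.mul_rpow_of_nonneg _ _ (by positivity)]
    gcongr
    calc (2 : ℝ≥0∞) ^ (1 / p) ≤ (2 : ℝ≥0∞) ^ (1 : ℝ) := by
          apply ENNReal.rpow_le_rpow_of_exponent_le (by norm_num)
          rw [div_le_one hp0]
          exact hp
      _ = 2 := ENNReal.rpow_one _
  have hL0 : (L : ℝ≥0∞) ^ (1 / p) ≠ 0 := by
    apply (ENNReal.rpow_pos _ _).ne'
    · exact_mod_cast hLpos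
    · simp
  have hLt : (L : ℝ≥0∞) ^ (1 / p) ≠ ∞ := ENNReal.rpow_ne_top_of_nonneg (by positivity) (by simp)
  have h4 : (m : ℝ≥0∞) ^ (1 / r) ≤ ENNReal.ofReal (2 * |C|) := by
    have h5 : (L : ℝ≥0∞) ^ (1 / p) * (m : ℝ≥0∞) ^ (1 / r) ≤
        (L : ℝ≥0∞) ^ (1 / p) * ENNReal.ofReal (2 * |C|) := by
      calc _ ≤ _ := h2
        _ ≤ ENNReal.ofReal |C| * (2 * (L : ℝ≥0∞) ^ (1 / p)) := by
            gcongr
            exact le_abs_self C
        _ = _ := by
            rw [ENNReal.ofReal_mul (by norm_num)]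
            simp only [ENNReal.ofReal_ofNat]
            ring
    exact (ENNReal.mul_le_mul_iff_right hL0 hLt).1 h5
  have h5 : (m : ℝ) ^ (1 / r) ≤ 2 * |C| := by
    have h6 : (m : ℝ≥0∞) ^ (1 / r) = ENNReal.ofReal ((m : ℝ) ^ (1 / r)) := by
      rw [← ENNReal.ofReal_rpow_of_nonneg (by positivity) (by positivity)]
      simp
    rw [h6] at h4
    exact (ENNReal.ofReal_le_ofReal_iff (by positivity)).1 h4
  have h6 : (m : ℝ) ≤ (2 * |C|) ^ r := by
    calc (m : ℝ) = ((m : ℝ) ^ (1 / r)) ^ r := by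
          rw [← Real.rpow_mul (by positivity), one_div_mul_cancel hr.ne', Real.rpow_one]
      _ ≤ _ := Real.rpow_le_rpow (by positivity) h5 hr.le
  linarith

theorem main (P : Polynomial ℤ) (hP : 2 ≤ P.natDegree) (p₁ : ℝ≥0∞) (h1 : 1 ≤ p₁) (h2 : p₁ ≠ ∞)
    (r : ℝ) (hr : 0 < r) (lam : ℝ) : ∃ T : ℤ ≃ᵐ ℤ, MeasurePreserving T Measure.count Measure.count ∧
      ∀ C : ℝ, ¬ VarBound p₁ ∞ r lam P Measure.count T C := by
  refine ⟨shiftZ, shiftZ_mp, fun C => ?_⟩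
  have h3 : p₁ = ENNReal.ofReal p₁.toReal := (ENNReal.ofReal_toReal h2).symm
  rw [h3]
  apply no_bound P hP p₁.toReal _ r hr lam C
  rw [← ENNReal.toReal_one]
  exact ENNReal.toReal_mono h2 h1

end Pool.Agent.Helper40.Bilin
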